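import Pool.Agent.H68.Rg4

set_option autoImplicit false

namespace Pool.Agent.Results.MP_9f65ab_al.NotIdem

open Pool.Agent.H68.RgD Pool.Agent.H68.Rg

/-- A Butler group `G ≤ ℚ⁵` whose regulator is not its own regulator. -/
theorem result : ∃ G : AddSubgroup (Fin 5 → ℚ), IsButler G ∧
    regulator (regulator G) ≠ regulator G := by
  refine ⟨G, butler, ?_⟩
  rw [le_antisymm reg_le le_reg]
  exact reg2

end Pool.Agent.Results.MP_9f65ab_al.NotIdem
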